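import Pool.Agent.H71.CR.Stmt2

set_option autoImplicit false

open Set Pool.Agent.TK Pool.Agent.H71.VK

namespace Pool.Agent.CR

private lemma h83_so_map {c c' : Lf} {g : Equiv.Perm ℕ} (H : ∀ l : List ℕ, c' (l.map g) = c l)
    {A : Set ℕ} {x x' : List ℕ} (h : SO c A x x') : SO c' (g '' A) (x.map g) (x'.map g) := by
  refine ⟨by rw [List.length_map, List.length_map, h.1], fun D hD => ?_⟩
  have h1 := h.2 (D.map g.symm) (by
    intro y hy
    obtain ⟨w, hw, rfl⟩ := List.mem_map.1 hy
    obtain ⟨a, ha, haw⟩ := hD w hw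
    rw [← haw, Equiv.symm_apply_apply]
    exact ha)
  have h2 := (pl_iso H _).2 h1
  rw [List.map_append, ← dg_map, map_map_symm, ← zip_map2] at h2
  exact h2

private lemma h83_fx_map {n : Bd} {c c' : Lf} {g : Equiv.Perm ℕ}
    (H : ∀ l : List ℕ, c' (l.map g) = c l) {Y A : Set ℕ} (h : Fx n c Y A) :
    Fx n c' (g '' Y) (g '' A) := by
  obtain ⟨E, h1, h2⟩ := h
  refine ⟨E.map (List.map g), ?_, ?_⟩
  · intro e he a ha
    obtain ⟨e0, he0, rfl⟩ := List.mem_map.1 he
    obtain ⟨w, hw, rfl⟩ := List.mem_map.1 ha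
    exact ⟨w, h1 e0 he0 w hw, rfl⟩
  · intro x hx hxA
    obtain ⟨e, he, hs⟩ := h2 (x.map g.symm) (by rw [List.length_map]; exact hx) (by
      intro a ha
      obtain ⟨w, hw, rfl⟩ := List.mem_map.1 ha
      obtain ⟨a, ha, haw⟩ := hxA w hw
      rw [← haw, Equiv.symm_apply_apply]
      exact ha)
    refine ⟨e.map g, List.mem_map_of_mem he, ?_⟩
    have h3 := h83_so_map H hs
    rw [map_map_symm] at h3
    exact h3

private lemma h83_fi_map {n : Bd} {c c' : Lf} {g : Equiv.Perm ℕ}
    (H : ∀ l : List ℕ, c' (l.map g) = c l) {A : Set ℕ} (h : Fi n c A) : Fi n c' (g '' A) := by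
  unfold Fi at h ⊢
  rw [← Set.image_compl_eq g.bijective]
  exact h83_fx_map H h

/-- GM3: invariance. -/
theorem pf_GM3 : T_GM3 := by
  intro n c c' g H m hc U hU f hf1 hf2
  have H' : ∀ l : List ℕ, c (l.map g.symm) = c' l := iso_symm H
  have hback : ∀ A : Set ℕ, g.symm '' (g '' A) = A := fun A => g.symm_image_image A
  have hD : Dirn n c {A | g '' A ∈ U} := by
    refine ⟨?_, ?_, ?_, ?_, ?_⟩
    · intro A hA
      have h1 := h83_fi_map H' (hU.fi _ hA)
      rwa [hback] at h1
    · intro A hA B hB hAB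
      exact hU.up _ hA _ (h83_fi_map H hB) (Set.image_mono hAB)
    · intro A hA B hB
      have h1 := hU.int _ hA _ hB
      rw [← Set.image_inter g.injective] at h1
      exact h1
    · intro A hA
      rcases hU.ult _ (h83_fi_map H hA) with h1 | h1
      · exact Or.inl h1
      · refine Or.inr ?_
        rw [← Set.image_compl_eq g.bijective] at h1
        exact h1
    · intro A hA
      have h1 := hU.fin _ hA
      exact (Set.infinite_image_iff g.injective.injOn).1 h1
  obtain ⟨i, j, hij, A, hA, hs⟩ := hc _ hD (fun i => (f i).map g.symm)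
    (fun i => by rw [List.length_map]; exact hf1 i)
    (fun i j => by rw [List.length_map, List.length_map]; exact hf2 i j)
  refine ⟨i, j, hij, g '' A, hA, ?_⟩
  have h1 := h83_so_map H hs
  simp only [map_map_symm] at h1
  exact h1

end Pool.Agent.CR
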