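import Pool.Agent.H71.CR.Stmt

set_option autoImplicit false

open Set Pool.Agent.TK Pool.Agent.H71.VK

namespace Pool.Agent.CR

/-- RPB: facts on the replaced structure. -/
theorem pf_RPB {C : Type} (hPSE : T_PSE C) (hRPX : T_RPX C) (hRPL : T_RPL C) : T_RPB C := by
  classical
  intro ι c0 n b M B z R hra T
  obtain ⟨p1, p2, -, -, -⟩ := hPSE ι c0 n b M B z R hra T
  have hX := hRPX ι c0 n b M B z R hra T
  have hL := hRPL ι c0 n b M B z R hra T
  have ans : ∀ l : List ℕ, ∃ m : List ℕ, m.length = l.length ∧ (rp M B z R T).2 l = M.2 m := by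
    intro l
    obtain ⟨q, h1, h2⟩ := hX l
    refine ⟨q.map Prod.snd, ?_, ?_⟩
    · rw [← h1, List.length_map, List.length_map]
    · rw [← h1]
      exact hL q h2
  refine ⟨⟨hra.val.1, ?_, ?_, ?_⟩, ?_, ?_⟩
  · intro l hl
    obtain ⟨m, h1, h2⟩ := ans l
    rw [h2]
    exact hra.val.2.1 m (by rw [h1]; exact hl)
  · intro l
    obtain ⟨m, h1, h2⟩ := ans l
    have h3 : bn (rp M B z R T) l = bn M m := congrArg Prod.snd h2
    rw [h3]
    exact hra.val.2.2.bd m
  · intro l hl
    obtain ⟨m, h1, h2⟩ := ans l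
    have h3 : bn (rp M B z R T) l = bn M m := congrArg Prod.snd h2
    rw [h3]
    exact hra.val.2.2.ar m (by rw [h1]; exact hl)
  · intro l hl
    have h1 : Ps M B z R T Rk.zero (dg l) :=
      p2 Rk.zero b (dg l) (fun _ _ _ _ _ h => bf_PI h) (p1 l hl)
    have h2 := hL (dg l) h1
    have e1 : (dg l).map Prod.fst = l := by
      unfold dg
      rw [List.map_map]
      exact List.map_id l
    have e2 : (dg l).map Prod.snd = l := by
      unfold dg
      rw [List.map_map]
      exact List.map_id l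
    rw [e1, e2] at h2
    exact h2
  · intro i hi l hl
    obtain ⟨q, h1, h2⟩ := hX l
    have h3 := hL q h2
    have h4 : PI (R i) M (dg (z i) ++ q.filter (fun q => decide (q.1 ∈ B i))) := h2.2.2 i hi
    have h5 := h4.2.2 q (by
      intro w hw
      have hw1 : w.1 ∈ l := by
        rw [← h1]
        exact List.mem_map_of_mem hw
      rcases hl w.1 hw1 with h6 | h6
      · exact List.mem_append_right _ (List.mem_filter.2 ⟨hw, decide_eq_true h6⟩)
      · have h7 : w.1 = w.2 := h2.1 w hw fun j _ => hra.avo i j w.1 h6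
        exact List.mem_append_left _ (mem_dg.2 ⟨h7, h6⟩))
    rw [← h1, h3, h5]

end Pool.Agent.CR
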