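import Pool.Agent.H71.CR.Stmt

set_option autoImplicit false

open Set Pool.Agent.TK Pool.Agent.H71.VK

namespace Pool.Agent.CR

/-- two answers of the same list, as a list of triples -/
private lemma h83_triples : ∀ (q q' : List (ℕ × ℕ)), q.map Prod.fst = q'.map Prod.fst →
    ∃ t : List (ℕ × ℕ × ℕ), t.map (fun z => (z.1, z.2.1)) = q ∧
      t.map (fun z => (z.1, z.2.2)) = q'
  | [], [], _ => ⟨[], rfl, rfl⟩
  | [], _ :: _, h => by simp at h
  | _ :: _, [], h => by simp at h
  | a :: q, a' :: q', h => by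
    rw [List.map_cons, List.map_cons] at h
    obtain ⟨h1, h2⟩ := List.cons.inj h
    obtain ⟨t, h3, h4⟩ := h83_triples q q' h2
    refine ⟨(a.1, a.2, a'.2) :: t, ?_, ?_⟩
    · rw [List.map_cons, h3]
    · rw [List.map_cons, h4]
      simp only [h1]

private lemma h83_cover {ι : Type} (T : Set ι) (B : ι → Set ℕ) (t : List (ℕ × ℕ × ℕ)) :
    ∃ I : List ι, (∀ i ∈ I, i ∈ T) ∧ ∀ τ ∈ t, (∃ i ∈ T, τ.1 ∈ B i) → ∃ i ∈ I, τ.1 ∈ B i := by
  induction t with
  | nil => exact ⟨[], by simp, by simp⟩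
  | cons a t ih =>
    obtain ⟨I, h1, h2⟩ := ih
    by_cases h : ∃ i ∈ T, a.1 ∈ B i
    · obtain ⟨i, hi, hi'⟩ := h
      refine ⟨i :: I, ?_, ?_⟩
      · intro j hj
        rcases List.mem_cons.1 hj with rfl | hj
        · exact hi
        · exact h1 j hj
      · intro τ hτ hex
        rcases List.mem_cons.1 hτ with rfl | hτ
        · exact ⟨i, List.mem_cons_self, hi'⟩
        · obtain ⟨j, hj, hj'⟩ := h2 τ hτ hex
          exact ⟨j, List.mem_cons_of_mem _ hj, hj'⟩
    · refine ⟨I, h1, ?_⟩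
      intro τ hτ hex
      rcases List.mem_cons.1 hτ with rfl | hτ
      · exact absurd hex h
      · exact h2 τ hτ hex

open Classical in
/-- the labels of two answers agree -/
private lemma h83_key {C ι : Type} {c0 : C} {n : Bd} {b : Rk} {M : St (C × ℕ)} {B : ι → Set ℕ}
    {z : ι → List ℕ} {R : ι → St (C × ℕ)} (hra : RA c0 n b M B z R) {T : Set ι}
    {t : List (ℕ × ℕ × ℕ)}
    (h1 : Ps M B z R T Rk.zero (t.map (fun z => (z.1, z.2.1))))
    (h2 : Ps M B z R T Rk.zero (t.map (fun z => (z.1, z.2.2)))) :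
    Pl (bn M) (bn M) (t.map (fun z => z.2)) := by
  -- the memberships
  have m1 : ∀ τ ∈ t, ∀ i ∈ T, (τ.1 ∈ B i ↔ τ.2.1 ∈ B i) := fun τ hτ i hi =>
    h1.2.1 (τ.1, τ.2.1) (List.mem_map.2 ⟨τ, hτ, rfl⟩) i hi
  have m2 : ∀ τ ∈ t, ∀ i ∈ T, (τ.1 ∈ B i ↔ τ.2.2 ∈ B i) := fun τ hτ i hi =>
    h2.2.1 (τ.1, τ.2.2) (List.mem_map.2 ⟨τ, hτ, rfl⟩) i hi
  have key : ∀ I : List ι, (∀ i ∈ I, i ∈ T) → Pl (bn M) (bn M)
      (t.map (fun τ => (τ.2.1, if (∃ i ∈ I, τ.1 ∈ B i) then τ.2.2 else τ.2.1))) := by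
    intro I
    induction I with
    | nil =>
      intro _
      refine pl_diag fun w hw => ?_
      obtain ⟨τ, hτ, rfl⟩ := List.mem_map.1 hw
      simp
    | cons i I ih =>
      intro hI
      have hiT : i ∈ T := hI i List.mem_cons_self
      have ih' := ih fun j hj => hI j (List.mem_cons_of_mem _ hj)
      -- the pairs in the block `i`
      set ti := t.filter (fun τ => decide (τ.1 ∈ B i)) with hti
      have hti' : ∀ τ, τ ∈ ti ↔ τ ∈ t ∧ τ.1 ∈ B i := by
        intro τ
        rw [hti, List.mem_filter]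
        simp
      set p := ti.map (fun τ => (τ.2.1, τ.2.2)) with hp
      have hblock : Pl (bn M) (bn M) (dg (z i) ++ p) := by
        have a1 : PI (R i) M (dg (z i) ++ (t.map (fun z => (z.1, z.2.1))).filter
            (fun q => decide (q.1 ∈ B i))) := h1.2.2 i hiT
        have a2 : PI (R i) M (dg (z i) ++ (t.map (fun z => (z.1, z.2.2))).filter
            (fun q => decide (q.1 ∈ B i))) := h2.2.2 i hiT
        have b1 : Pl (bn (R i)) (bn M) (dg (z i) ++ (t.map (fun z => (z.1, z.2.1))).filter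
            (fun q => decide (q.1 ∈ B i))) := fun s hs => congrArg Prod.snd (a1.2.2 s hs)
        have b2 : Pl (bn (R i)) (bn M) (dg (z i) ++ (t.map (fun z => (z.1, z.2.2))).filter
            (fun q => decide (q.1 ∈ B i))) := fun s hs => congrArg Prod.snd (a2.2.2 s hs)
        have b3 : Pl (bn M) (bn (R i)) (dg (z i) ++ ti.map (fun τ => (τ.2.1, τ.1))) := by
          refine b1.symm' fun w hw => ?_
          rcases List.mem_append.1 hw with hw | hw
          · have h3 := mem_dg.1 hw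
            refine List.mem_append_left _ (mem_dg.2 ⟨h3.1.symm, ?_⟩)
            change w.2 ∈ z i
            rw [← h3.1]
            exact h3.2
          · obtain ⟨τ, hτ, rfl⟩ := List.mem_map.1 hw
            rw [hti'] at hτ
            refine List.mem_append_right _ (List.mem_filter.2 ⟨?_, ?_⟩)
            · exact List.mem_map.2 ⟨τ, hτ.1, rfl⟩
            · simpa using hτ.2
        refine b3.comp b2 fun w hw => ?_
        rcases List.mem_append.1 hw with hw | hw
        · have h3 := mem_dg.1 hw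
          refine ⟨w.1, List.mem_append_left _ (mem_dg.2 ⟨rfl, h3.2⟩),
            List.mem_append_left _ (mem_dg.2 ⟨h3.1, h3.2⟩)⟩
        · obtain ⟨τ, hτ, rfl⟩ := List.mem_map.1 hw
          refine ⟨τ.1, List.mem_append_right _ (List.mem_map.2 ⟨τ, hτ, rfl⟩), ?_⟩
          rw [hti'] at hτ
          refine List.mem_append_right _ (List.mem_filter.2 ⟨?_, ?_⟩)
          · exact List.mem_map.2 ⟨τ, hτ.1, rfl⟩
          · simpa using hτ.2
      have hpB : ∀ q ∈ p, q.1 ∈ B i ∧ q.2 ∈ B i := by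
        intro q hq
        obtain ⟨τ, hτ, rfl⟩ := List.mem_map.1 hq
        rw [hti'] at hτ
        exact ⟨(m1 τ hτ.1 i hiT).1 hτ.2, (m2 τ hτ.1 i hiT).1 hτ.2⟩
      set tn := t.filter (fun τ => decide (τ.1 ∉ B i)) with hto
      have hto' : ∀ τ, τ ∈ tn ↔ τ ∈ t ∧ τ.1 ∉ B i := by
        intro τ
        rw [hto, List.mem_filter]
        simp
      have hD := hra.ctl i p hpB hblock
        (tn.map (fun τ => if (∃ j ∈ I, τ.1 ∈ B j) then τ.2.2 else τ.2.1)) (by
        intro y hy
        obtain ⟨τ, hτ, rfl⟩ := List.mem_map.1 hy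
        rw [hto'] at hτ
        by_cases h5 : ∃ j ∈ I, τ.1 ∈ B j
        · rw [if_pos h5, ← m2 τ hτ.1 i hiT]
          exact hτ.2
        · rw [if_neg h5, ← m1 τ hτ.1 i hiT]
          exact hτ.2)
      by_cases hiI : i ∈ I
      · refine ih'.mono ?_
        intro w hw
        obtain ⟨τ, hτ, rfl⟩ := List.mem_map.1 hw
        refine List.mem_map.2 ⟨τ, hτ, ?_⟩
        have e : (∃ j ∈ i :: I, τ.1 ∈ B j) ↔ ∃ j ∈ I, τ.1 ∈ B j := by
          constructor
          · rintro ⟨j, hj, hj'⟩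
            rcases List.mem_cons.1 hj with rfl | hj
            · exact ⟨j, hiI, hj'⟩
            · exact ⟨j, hj, hj'⟩
          · rintro ⟨j, hj, hj'⟩
            exact ⟨j, List.mem_cons_of_mem _ hj, hj'⟩
        simp only [e]
      · refine ih'.comp hD fun w hw => ?_
        obtain ⟨τ, hτ, rfl⟩ := List.mem_map.1 hw
        refine ⟨if (∃ j ∈ I, τ.1 ∈ B j) then τ.2.2 else τ.2.1, List.mem_map.2 ⟨τ, hτ, rfl⟩, ?_⟩
        by_cases h6 : τ.1 ∈ B i
        · have h7 : ¬ ∃ j ∈ I, τ.1 ∈ B j := by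
            rintro ⟨j, hj, hj'⟩
            have hne : i ≠ j := fun h => hiI (h ▸ hj)
            exact Set.disjoint_left.1 (hra.disj i j hne) h6 hj'
          have h8 : ∃ j ∈ i :: I, τ.1 ∈ B j := ⟨i, List.mem_cons_self, h6⟩
          simp only [if_neg h7, if_pos h8]
          refine List.mem_append_right _ (List.mem_append_right _ (List.mem_map.2 ⟨τ, ?_, rfl⟩))
          rw [hti']
          exact ⟨hτ, h6⟩
        · have e : (∃ j ∈ i :: I, τ.1 ∈ B j) ↔ ∃ j ∈ I, τ.1 ∈ B j := by
            constructor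
            · rintro ⟨j, hj, hj'⟩
              rcases List.mem_cons.1 hj with rfl | hj
              · exact absurd hj' h6
              · exact ⟨j, hj, hj'⟩
            · rintro ⟨j, hj, hj'⟩
              exact ⟨j, List.mem_cons_of_mem _ hj, hj'⟩
          simp only [e]
          refine List.mem_append_left _ (mem_dg.2 ⟨rfl, ?_⟩)
          refine List.mem_map.2 ⟨τ, ?_, rfl⟩
          rw [hto']
          exact ⟨hτ, h6⟩
  obtain ⟨I, hI, hI'⟩ := h83_cover T B t
  refine (key I hI).mono ?_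
  intro w hw
  obtain ⟨τ, hτ, rfl⟩ := List.mem_map.1 hw
  refine List.mem_map.2 ⟨τ, hτ, ?_⟩
  by_cases h : ∃ i ∈ I, τ.1 ∈ B i
  · simp only [if_pos h]
  · simp only [if_neg h]
    have h3 : ∀ i ∈ T, τ.1 ∉ B i := by
      intro i hi hc
      exact h (hI' τ hτ ⟨i, hi, hc⟩)
    have e1 : τ.1 = τ.2.1 := h1.1 (τ.1, τ.2.1) (List.mem_map.2 ⟨τ, hτ, rfl⟩) h3
    have e2 : τ.1 = τ.2.2 := h2.1 (τ.1, τ.2.2) (List.mem_map.2 ⟨τ, hτ, rfl⟩) h3
    exact Prod.ext rfl (e1.symm.trans e2)

/-- RPL: the labels of the replaced structure can be computed with every answer. -/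
theorem pf_RPL {C : Type} : T_RPL C := by
  classical
  intro ι c0 n b M B z R hra T q hq
  by_cases hA : ∃ i ∈ T, q.map Prod.fst ≠ [] ∧ ∀ x ∈ q.map Prod.fst, x ∈ B i
  · have e : (rp M B z R T).2 (q.map Prod.fst) = (R hA.choose).2 (q.map Prod.fst) := by
      unfold rp
      exact dif_pos hA
    rw [e]
    obtain ⟨h1, h2, h3⟩ := hA.choose_spec
    have h4 : PI (R hA.choose) M (dg (z hA.choose) ++ q.filter
      (fun q => decide (q.1 ∈ B hA.choose))) := hq.2.2 _ h1
    refine h4.2.2 q fun w hw => List.mem_append_right _ (List.mem_filter.2 ⟨hw, ?_⟩)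
    exact decide_eq_true (h3 w.1 (List.mem_map_of_mem hw))
  · have hB : ∃ q' : List (ℕ × ℕ), q'.map Prod.fst = q.map Prod.fst ∧
        Ps M B z R T Rk.zero q' := ⟨q, rfl, hq⟩
    have e : (rp M B z R T).2 (q.map Prod.fst) = M.2 (hB.choose.map Prod.snd) := by
      unfold rp
      exact (dif_neg hA).trans (dif_pos hB)
    rw [e]
    obtain ⟨h1, h2⟩ := hB.choose_spec
    generalize hB.choose = q' at h1 h2 ⊢
    obtain ⟨t, e1, e2⟩ := h83_triples q q' h1.symm
    subst e1 e2
    have hkey := h83_key hra hq h2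
    have f1 : (t.map (fun z => (z.1, z.2.1))).map Prod.snd = t.map (fun z => z.2.1) := by
      rw [List.map_map]
      rfl
    have f2 : (t.map (fun z => (z.1, z.2.2))).map Prod.snd = t.map (fun z => z.2.2) := by
      rw [List.map_map]
      rfl
    have f3 : (t.map (fun z => (z.1, z.2.1))).map Prod.fst = t.map (fun z => z.1) := by
      rw [List.map_map]
      rfl
    rw [f1, f2]
    rw [f3] at hA
    by_cases hlen : t.length = 1
    · obtain ⟨τ, rfl⟩ := List.length_eq_one_iff.1 hlen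
      have h3 : ∀ i ∈ T, τ.1 ∉ B i := by
        intro i hi hc
        exact hA ⟨i, hi, by simp, by simpa using hc⟩
      have g1 : τ.1 = τ.2.1 := hq.1 (τ.1, τ.2.1) (by simp) h3
      have g2 : τ.1 = τ.2.2 := h2.1 (τ.1, τ.2.2) (by simp) h3
      have g3 : τ.2.2 = τ.2.1 := g2.symm.trans g1
      simp only [List.map_cons, List.map_nil, g3]
    · have k1 : (M.2 (t.map (fun z => z.2.2))).1 = c0 := hra.val.2.1 _ (by simpa using hlen)
      have k2 : (M.2 (t.map (fun z => z.2.1))).1 = c0 := hra.val.2.1 _ (by simpa using hlen)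
      have k3 := hkey (t.map (fun z => z.2)) fun w hw => hw
      rw [List.map_map, List.map_map] at k3
      exact Prod.ext (k1.trans k2.symm) k3.symm

end Pool.Agent.CR
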